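import Pool.Agent.Helper56.EZ.Blowup
import Pool.Agent.Helper56.EZ.QuatGroup
import Pool.Agent.Helper6.QuatCocompact

set_option autoImplicit false

/-!
# The blow up data for the quaternion group
-/

open Matrix Pool.Agent.Helper56.EZ

namespace Pool.Agent.Helper14.EZ

theorem entry_le_of_nrm {A : SL2} {R : ℝ} (h : A.nrm ≤ R) (i j : Fin 2) :
    |A.1 i j| ≤ R + 1 := by
  have h1 : A.1 i j ^ 2 ≤ A.nrm := by
    unfold SL2.nrm
    fin_cases i <;> fin_cases j <;> simp only [Fin.zero_eta, Fin.mk_one, Fin.isValue] <;>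
      nlinarith [sq_nonneg (A.1 0 0), sq_nonneg (A.1 0 1), sq_nonneg (A.1 1 0),
        sq_nonneg (A.1 1 1)]
  have h2 : |A.1 i j| ^ 2 ≤ R := by rw [sq_abs]; exact h1.trans h
  nlinarith [sq_nonneg (|A.1 i j| - 1), abs_nonneg (A.1 i j)]

theorem quat_fin (R : ℝ) : {k : quatGroup | SL2.nrm (k : SL2) ≤ R}.Finite := by
  refine (Pool.Agent.Helper6.quatGroup_discrete (R + 1)).subset ?_
  intro k hk i j
  exact entry_le_of_nrm hk i j

theorem quat_coc : ∃ M : ℝ, ∀ A : SL2, ∃ k ∈ quatGroup, SL2.nrm (k * A) ≤ M := by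
  obtain ⟨M, hM⟩ := Pool.Agent.Helper6.quatGroup_cocompact
  refine ⟨4 * M ^ 2, fun A => ?_⟩
  obtain ⟨k, hk, h⟩ := hM A
  refine ⟨k, hk, ?_⟩
  have h1 : ∀ i j, (k * A).1 i j ^ 2 ≤ M ^ 2 := by
    intro i j
    rw [← sq_abs]
    exact pow_le_pow_left₀ (abs_nonneg _) (h i j) 2
  unfold SL2.nrm
  have a := h1 0 0
  have b := h1 0 1
  have c := h1 1 0
  have d := h1 1 1
  linarith

theorem quat_stab (k : SL2) (hk : k ∈ quatGroup) (h : k.1 1 0 = 0) : k.1 0 1 = 0 := by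
  obtain ⟨x, y, z, w, -, hA⟩ := mem_quatGroup.1 hk
  have h3 : (√3 : ℝ) * √3 = 3 := Real.mul_self_sqrt (by norm_num)
  have h10 : k.1 1 0 = 7 * ((z : ℝ) - w * √3) := by
    rw [hA]; simp [quatMat]
  have h01 : k.1 0 1 = (z : ℝ) + w * √3 := by
    rw [hA]; simp [quatMat]
  rw [h] at h10
  have h4 : (z : ℝ) = w * √3 := by linarith
  have h5 : ((z ^ 2 - 3 * w ^ 2 : ℤ) : ℝ) = 0 := by
    push_cast
    rw [h4]
    linear_combination (w : ℝ) ^ 2 * h3
  have h6 : z ^ 2 - 3 * w ^ 2 = 0 := by exact_mod_cast h5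
  have h7 : Pool.Agent.Helper6.nrm z w 0 0 = 0 := by
    unfold Pool.Agent.Helper6.nrm
    linarith
  obtain ⟨hz, hw, -, -⟩ := Pool.Agent.Helper6.nrm_eq_zero h7
  rw [h01, hz, hw]
  simp

theorem quat_tr (k : SL2) (hk : k ∈ quatGroup) (h : k ≠ 1) : 4 < (k.1 0 0 + k.1 1 1) ^ 2 := by
  obtain ⟨x, y, z, w, hx, hA⟩ := mem_quatGroup.1 hk
  have h00 : k.1 0 0 = (x : ℝ) + y * √3 := by rw [hA]; simp [quatMat]
  have h11 : k.1 1 1 = (x : ℝ) - y * √3 := by rw [hA]; simp [quatMat]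
  have hdet : x ^ 2 - 3 * y ^ 2 - 7 * z ^ 2 + 21 * w ^ 2 = 1 := by
    have := k.det_coe
    rw [hA, quatMat_det] at this
    exact_mod_cast this
  have h1 : k.1 0 0 + k.1 1 1 = ((2 * x : ℤ) : ℝ) := by
    rw [h00, h11]; push_cast; ring
  rw [h1]
  have hx2 : x ≠ 1 := by
    rintro rfl
    have h2 : Pool.Agent.Helper6.nrm 0 y z w = 0 := by
      unfold Pool.Agent.Helper6.nrm
      linarith
    obtain ⟨-, hy, hz, hw⟩ := Pool.Agent.Helper6.nrm_eq_zero h2
    apply h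
    ext i j
    rw [hA, hy, hz, hw]
    fin_cases i <;> fin_cases j <;> simp [quatMat]
  have h3 : (4 : ℤ) < (2 * x) ^ 2 := by
    have h4 : 2 ≤ x ∨ x ≤ -2 := by omega
    rcases h4 with h4 | h4 <;> nlinarith
  exact_mod_cast h3

theorem quat_countable : Countable quatGroup := by
  rw [← Set.countable_univ_iff]
  have h1 : (Set.univ : Set quatGroup) = ⋃ n : ℕ, {k : quatGroup | SL2.nrm (k : SL2) ≤ n} := by
    ext k
    simp only [Set.mem_univ, Set.mem_iUnion, true_iff]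
    exact exists_nat_ge (SL2.nrm (k : SL2))
  rw [h1]
  exact Set.countable_iUnion fun n => (quat_fin n).countable

theorem exists_weights : ∃ c : quatGroup → ℝ, (∀ h, 0 < c h) ∧ Summable c ∧
    ∑' h, c h ≤ 1 / 2 ∧ Summable (fun h => c h * slopeC ((h : SL2)⁻¹)) ∧
    ∑' h, c h * slopeC ((h : SL2)⁻¹) ≤ 1 / 2 := by
  have := quat_countable
  have := Encodable.ofCountable quatGroup
  obtain ⟨e, he, s, hs, hs2⟩ := posSumOfEncodable (ε := 1 / 2) (by norm_num) quatGroup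
  have hpos : ∀ h : quatGroup, 0 < 1 + slopeC ((h : SL2)⁻¹) := fun h => by
    have := slopeC_nonneg ((h : SL2)⁻¹)
    linarith
  have hle1 : ∀ h : quatGroup, e h / (1 + slopeC ((h : SL2)⁻¹)) ≤ e h := fun h => by
    rw [div_le_iff₀ (hpos h)]
    have := slopeC_nonneg ((h : SL2)⁻¹)
    nlinarith [he h]
  have hle2 : ∀ h : quatGroup, e h / (1 + slopeC ((h : SL2)⁻¹)) * slopeC ((h : SL2)⁻¹) ≤ e h :=
    fun h => by
    rw [div_mul_eq_mul_div, div_le_iff₀ (hpos h)]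
    nlinarith [he h]
  have hn1 : ∀ h : quatGroup, 0 < e h / (1 + slopeC ((h : SL2)⁻¹)) := fun h =>
    div_pos (he h) (hpos h)
  have hn2 : ∀ h : quatGroup,
      0 ≤ e h / (1 + slopeC ((h : SL2)⁻¹)) * slopeC ((h : SL2)⁻¹) := fun h =>
    mul_nonneg (hn1 h).le (slopeC_nonneg _)
  have hsum1 : Summable fun h : quatGroup => e h / (1 + slopeC ((h : SL2)⁻¹)) :=
    Summable.of_nonneg_of_le (fun h => (hn1 h).le) hle1 hs.summable
  have hsum2 : Summable fun h : quatGroup =>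
      e h / (1 + slopeC ((h : SL2)⁻¹)) * slopeC ((h : SL2)⁻¹) :=
    Summable.of_nonneg_of_le hn2 hle2 hs.summable
  refine ⟨fun h => e h / (1 + slopeC ((h : SL2)⁻¹)), hn1, hsum1, ?_, hsum2, ?_⟩
  · refine (hsum1.tsum_le_tsum hle1 hs.summable).trans ?_
    rw [hs.tsum_eq]; exact hs2
  · refine (hsum2.tsum_le_tsum hle2 hs.summable).trans ?_
    rw [hs.tsum_eq]; exact hs2

/-- The blow up data of the quaternion group. -/
noncomputable def quatData : FData where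
  Γ := quatGroup
  fin := quat_fin
  stab := quat_stab
  coc := quat_coc
  tr := quat_tr
  c := exists_weights.choose
  c_pos := exists_weights.choose_spec.1
  c_sum := exists_weights.choose_spec.2.1
  c_tsum := exists_weights.choose_spec.2.2.1
  cs_sum := exists_weights.choose_spec.2.2.2.1
  cs_tsum := exists_weights.choose_spec.2.2.2.2

theorem quatData_Γ : quatData.Γ = quatGroup := rfl

end Pool.Agent.Helper14.EZ
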